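import Mathlib

set_option autoImplicit false

namespace Pool.Agent.Results.MP_164a7b_al.Thick

open SimpleGraph

/-- An infinite graph in which every finite vertex set leaves exactly one infinite component. -/
def OneEnded {V : Type} (Γ : SimpleGraph V) : Prop :=
  Infinite V ∧ ∀ F : Finset V, ∃! C : (Γ.induce (F : Set V)ᶜ).ConnectedComponent, C.supp.Infinite

/-- The vertices of `A` whose component in the subgraph induced on `A` is infinite. -/
def infPart {V : Type} (Γ : SimpleGraph V) (A : Set V) : Set V :=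
  {x | ∃ h : x ∈ A, ((Γ.induce A).connectedComponentMk ⟨x, h⟩).supp.Infinite}

@[ext] structure G where
  f : ℤ →₀ ZMod 2
  v : ℤ

def γ (v : ℤ) : ℤ ≃ ℤ where
  toFun j := if v % 2 = 0 then v / 2 + j else v / 2 - j
  invFun j := if v % 2 = 0 then j - v / 2 else v / 2 - j
  left_inv j := by dsimp only; split_ifs <;> omega
  right_inv j := by dsimp only; split_ifs <;> omega

theorem γ_symm (v j : ℤ) : (γ v).symm j = if v % 2 = 0 then j - v / 2 else v / 2 - j := rfl

noncomputable instance : Mul G :=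
  ⟨fun a b => ⟨a.f + b.f.equivMapDomain (γ a.v), if a.v % 2 = 0 then a.v + b.v else a.v - b.v⟩⟩
noncomputable instance : One G := ⟨⟨0, 0⟩⟩
noncomputable instance : Inv G :=
  ⟨fun a => ⟨-a.f.equivMapDomain (γ a.v).symm, if a.v % 2 = 0 then -a.v else a.v⟩⟩
theorem mul_f (a b : G) (j : ℤ) : (a * b).f j = a.f j + b.f ((γ a.v).symm j) := rfl
theorem mul_v (a b : G) : (a * b).v = if a.v % 2 = 0 then a.v + b.v else a.v - b.v := rfl

noncomputable instance : Group G := Group.ofLeftAxioms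
  (fun a b c => G.ext (Finsupp.ext fun j => by
    simp only [mul_f, add_assoc]
    congr 3
    simp only [γ_symm, mul_v]
    split_ifs <;> omega) (by simp only [mul_v]; split_ifs <;> omega))
  (fun a => G.ext (Finsupp.ext fun j => by
    change 0 + a.f (j - 0 / 2) = _
    simp) (zero_add _))
  (fun a => G.ext (Finsupp.ext fun j => by
    change -a.f (γ a.v j) + a.f ((γ (if a.v % 2 = 0 then -a.v else a.v)).symm j) = 0
    rw [neg_add_eq_zero]
    congr 1
    change (if a.v % 2 = 0 then a.v / 2 + j else a.v / 2 - j) = _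
    simp only [γ_symm]
    split_ifs <;> omega) (by
    change (if (if a.v % 2 = 0 then -a.v else a.v) % 2 = 0 then
      (if a.v % 2 = 0 then -a.v else a.v) + a.v else (if a.v % 2 = 0 then -a.v else a.v) - a.v) = 0
    split_ifs <;> omega))

def R (u w : G) : Prop :=
  u.v ≤ w.v + 1 ∧ w.v ≤ u.v + 1 ∧ ∀ j, j ≠ u.v / 2 → j ≠ w.v / 2 → u.f j = w.f j

def S : Set G := {g | R 1 g}

theorem mem_S (u g : G) : g ∈ S ↔ R u (u * g) := by
  change (0 ≤ g.v + 1 ∧ g.v ≤ 0 + 1 ∧ ∀ j, j ≠ 0 / 2 → j ≠ g.v / 2 → 0 = g.f j) ↔ _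
  rw [R]
  conv_rhs => rw [(γ u.v).surjective.forall]
  simp only [mul_f, left_eq_add, Equiv.symm_apply_apply, mul_v]
  refine and_assoc.symm.trans ((and_congr (by split_ifs <;> omega)
    (forall_congr' fun j => ?_)).trans and_assoc)
  change _ ↔ ((if u.v % 2 = 0 then u.v / 2 + j else u.v / 2 - j) ≠ _ →
    (if u.v % 2 = 0 then u.v / 2 + j else u.v / 2 - j) ≠ _ → _)
  rw [eq_comm]
  refine imp_congr ?_ (imp_congr_left ?_) <;> split_ifs <;> omega

noncomputable abbrev Γ : SimpleGraph G := mulCayley S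

theorem adj_iff (u w : G) : Γ.Adj u w ↔ u ≠ w ∧ R u w := by
  rw [mulCayley_adj, mem_S u, mem_S w, mul_inv_cancel_left, mul_inv_cancel_left]
  exact and_congr_right fun _ => or_iff_left_of_imp fun h =>
    ⟨h.2.1, h.1, fun j h1 h2 => (h.2.2 j h2 h1).symm⟩

def Rch (A : Set G) (x y : G) : Prop :=
  ∃ (hx : x ∈ A) (hy : y ∈ A), (Γ.induce A).Reachable ⟨x, hx⟩ ⟨y, hy⟩

theorem Rch.trans {A : Set G} {x y z : G} (h : Rch A x y) (h' : Rch A y z) : Rch A x z :=
  let ⟨hx, _, h⟩ := h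
  let ⟨_, hz, h'⟩ := h'
  ⟨hx, hz, h.trans h'⟩

theorem Rch.symm {A : Set G} {x y : G} (h : Rch A x y) : Rch A y x :=
  let ⟨hx, hy, h⟩ := h
  ⟨hy, hx, h.symm⟩

theorem Rch.mono {A B : Set G} {x y : G} (h : Rch A x y) (hAB : A ⊆ B) : Rch B x y :=
  let ⟨hx, hy, h⟩ := h
  ⟨hAB hx, hAB hy, h.map (Γ.induceHomOfLE hAB).toHom⟩

theorem rch_of_R {A : Set G} {x y : G} (hx : x ∈ A) (hy : y ∈ A) (h : R x y) : Rch A x y := by
  by_cases e : x = y
  · subst e
    exact ⟨hx, hx, Reachable.refl _⟩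
  · exact ⟨hx, hy, Adj.reachable ((adj_iff x y).2 ⟨e, h⟩)⟩

theorem move (A : Set G) (f : ℤ →₀ ZMod 2) (v : ℤ) (k : ℕ) (e : ℤ) (he : e = 1 ∨ e = -1)
    (h : ∀ i : ℕ, (⟨f, v + e * i⟩ : G) ∈ A) : Rch A ⟨f, v⟩ ⟨f, v + e * k⟩ := by
  induction k with
  | zero => simpa using rch_of_R (h 0) (h 0) ⟨by omega, by omega, fun _ _ _ => rfl⟩
  | succ k ih =>
    refine ih.trans (rch_of_R (h k) (h (k + 1)) ⟨?_, ?_, fun _ _ _ => rfl⟩) <;>
      rcases he with rfl | rfl <;> push_cast <;> omega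

theorem conn (Q : (ℤ →₀ ZMod 2) → Prop) (hQ : ∀ f f' i, Q f → Q f' → Q (f.update i (f' i)))
    (x y : G) (hx : Q x.f) (hy : Q y.f) : Rch {g | Q g.f} x y := by
  classical
  have h1 : ∀ f v w, Q f → Rch {g | Q g.f} ⟨f, v⟩ ⟨f, w⟩ := fun f v w hf => by
    obtain ⟨k, hk | hk⟩ := Int.eq_nat_or_neg (w - v)
    · simpa [← hk] using move {g | Q g.f} f v k 1 (Or.inl rfl) fun _ => hf
    · simpa [← hk] using move {g | Q g.f} f v k (-1) (Or.inr rfl) fun _ => hf
  have h2 : ∀ (s : Finset ℤ) (f : ℤ →₀ ZMod 2) (v : ℤ), Q f → (∀ i ∉ s, f i = y.f i) →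
      Rch {g | Q g.f} ⟨f, v⟩ y := by
    intro s
    induction s using Finset.induction_on with
    | empty =>
      intro f v hf h
      obtain rfl : f = y.f := Finsupp.ext fun i => h i (by simp)
      exact h1 _ _ _ hf
    | insert a s _ ih =>
      intro f v hf h
      refine ((h1 f v (2 * a) hf).trans (rch_of_R hf (hQ f y.f a hf hy)
        ⟨by simp, by simp, fun j hj _ => ?_⟩)).trans (ih _ (2 * a) (hQ f y.f a hf hy) fun i hi => ?_)
      · have : j ≠ a := by simpa using hj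
        simp [this]
      · by_cases e : i = a
        · simp [e]
        · simp [e, h i (by simp [e, hi])]
  exact h2 (x.f - y.f).support x.f x.v hx fun i hi => by simpa [sub_eq_zero] using hi

theorem reach (g : G) : Γ.Reachable 1 g := by
  obtain ⟨_, _, h⟩ := conn (fun _ => True) (by simp) 1 g trivial trivial
  exact h.map (Embedding.induce _).toHom

theorem lip (N : G → ℤ) (h : ∀ u w, R u w → N w ≤ N u + 1) (h1 : N 1 ≤ 0) (g : G) :
    N g ≤ Γ.dist 1 g := by
  have : ∀ u w (p : Γ.Walk u w), N w ≤ N u + p.length := fun u w p => by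
    induction p with
    | nil => simp
    | cons ha p ih =>
      have := h _ _ ((adj_iff _ _).1 ha).2
      rw [Walk.length_cons]
      push_cast
      omega
  obtain ⟨p, hp⟩ := (reach g).exists_walk_length_eq_dist
  have := this _ _ p
  omega

theorem dist_step {u w : G} (h : R u w) : Γ.dist 1 w ≤ Γ.dist 1 u + 1 := by
  by_cases e : u = w
  · subst e
    omega
  · exact ((reach u).dist_triangle_left w).trans
      (by rw [dist_eq_one_iff_adj.2 ((adj_iff _ _).2 ⟨e, h⟩)])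

theorem upper (k : ℕ) : ∀ f : ℤ →₀ ZMod 2, (∀ j, f j ≠ 0 → 0 ≤ j ∧ 2 * j ≤ k + 1) →
    Γ.dist 1 ⟨f, k + 1⟩ ≤ k + 1 := by
  induction k with
  | zero =>
    intro f hf
    refine (dist_step (u := 1) ⟨(by simp : (0 : ℤ) ≤ _), (by simp : _ ≤ (0 : ℤ) + 1),
      fun j hj _ => ?_⟩).trans (by simp)
    by_contra h
    have := hf j (Ne.symm h)
    exact hj (show j = 0 / 2 by omega)
  | succ k ih =>
    intro f hf
    refine (dist_step (u := ⟨f.erase ((k + 2) / 2), k + 1⟩) ⟨by push_cast; omega,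
      by push_cast; omega, fun j _ hj => Finsupp.erase_ne (by push_cast at hj; omega)⟩).trans
      (Nat.succ_le_succ (ih _ fun j hj => ?_))
    by_cases e : j = (k + 2) / 2
    · simp [e] at hj
    · have := hf j (by rwa [Finsupp.erase_ne e] at hj)
      omega

theorem abs_le_dist (g : G) : g.v ≤ Γ.dist 1 g ∧ -g.v ≤ Γ.dist 1 g :=
  ⟨lip (fun g => g.v) (fun _ _ h => h.2.1) le_rfl g,
    lip (fun g => -g.v) (fun _ _ h => by have := h.1; omega) le_rfl g⟩

theorem lower (g : G) (j : ℤ) (hj : g.f j ≠ 0) (h : g.v < 2 * j) : 4 * j - g.v ≤ Γ.dist 1 g := by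
  classical
  have := lip (fun g => if g.f j ≠ 0 ∧ g.v < 2 * j then 4 * j - g.v else g.v) (fun u w h => ?_)
    (by rw [if_neg fun h => h.1 rfl]; rfl) g
  · rwa [if_pos ⟨hj, h⟩] at this
  · obtain ⟨h1, h2, h3⟩ := h
    by_cases e : u.f j = w.f j
    · rw [e]
      by_cases e' : w.f j = 0 <;> simp only [e', ne_eq, not_true, not_false_iff, true_and,
        false_and, if_false] <;> (try split_ifs) <;> omega
    · have : j = u.v / 2 ∨ j = w.v / 2 := by
        by_contra h
        push Not at h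
        exact e (h3 j h.1 h.2)
      split_ifs with h4 h5 h5
      · omega
      · have := h4.2
        omega
      · have := h5.2
        omega
      · omega

theorem finite_of (J : Finset ℤ) (T : Set ℤ) (hT : T.Finite) :
    {g : G | g.v ∈ T ∧ ∀ j ∉ J, g.f j = 0}.Finite := by
  refine Set.Finite.of_finite_image (f := fun g => (g.v, fun j : J => g.f j))
    ((hT.prod Set.finite_univ).subset ?_) ?_
  · rintro _ ⟨g, hg, rfl⟩
    exact ⟨hg.1, trivial⟩
  · intro g hg g' hg' e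
    refine G.ext (Finsupp.ext fun j => ?_) (congrArg Prod.fst e)
    by_cases h : j ∈ J
    · exact congrFun (congrArg Prod.snd e) ⟨j, h⟩
    · rw [hg.2 j h, hg'.2 j h]

theorem ray (A : Set G) (v e : ℤ) (he : e = 1 ∨ e = -1) (f : ℤ →₀ ZMod 2)
    (h : ∀ i : ℕ, (⟨f, v + e * i⟩ : G) ∈ A) : (⟨f, v⟩ : G) ∈ infPart Γ A := by
  refine ⟨by simpa using h 0, Set.infinite_of_injective_forall_mem
    (f := fun i : ℕ => ⟨⟨f, v + e * i⟩, h i⟩) (fun i j hij => ?_) fun i => ?_⟩
  · have := congrArg (fun g => g.1.v) hij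
    rcases he with rfl | rfl <;> simp only at this <;> omega
  · obtain ⟨_, _, h1⟩ := move A f v i e he h
    exact ConnectedComponent.sound h1.symm

theorem oneEnded : OneEnded Γ := by
  classical
  refine ⟨Infinite.of_injective (fun v : ℤ => (⟨0, v⟩ : G)) fun _ _ e => congrArg G.v e,
    fun F => ?_⟩
  let J := F.biUnion fun g => insert (g.v / 2) g.f.support
  have hJ : ∀ j ∉ J, ∀ g : G, g.v / 2 = j ∨ g.f j = 1 → g ∈ (F : Set G)ᶜ := by
    intro j hj g h hg
    refine hj (Finset.mem_biUnion.2 ⟨g, hg, ?_⟩)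
    rcases h with h | h <;> simp [h]
  obtain ⟨j₀, h₀⟩ := Infinite.exists_notMem_finset J
  have hc : ∀ j ∉ J, ∀ x y : G, x.f j = 1 → y.f j = 1 → Rch (F : Set G)ᶜ x y := fun j hj x y hx hy =>
    (conn (fun f => f j = 1) (fun f f' i h h' => by
      by_cases e : j = i
      · simpa [← e] using h'
      · simpa [e] using h) x y hx hy).mono fun g hg => hJ j hj g (Or.inr hg)
  let b : G := ⟨Finsupp.single j₀ 1, 0⟩
  have h1 : ∀ j ∉ J, ∀ x : G, x.f j = 1 → Rch (F : Set G)ᶜ x b := fun j hj x hx =>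
    (hc j hj x ⟨(Finsupp.single j₀ 1).update j 1, 0⟩ hx (by simp)).trans (hc j₀ h₀ _ _ (by
      by_cases e : j₀ = j <;> simp [e]) (by simp [b]))
  obtain ⟨hb, hb'⟩ := ray (F : Set G)ᶜ 0 1 (Or.inl rfl) (Finsupp.single j₀ 1) fun i =>
    hJ j₀ h₀ _ (Or.inr (by simp))
  refine ⟨_, hb', fun C hC => ?_⟩
  obtain ⟨_, ⟨x, hx, rfl⟩, h2⟩ := (hC.image Subtype.val_injective.injOn).exists_notMem_finite
    (finite_of J {v | v / 2 ∈ J} ((J.biUnion fun j => {2 * j, 2 * j + 1}).finite_toSet.subset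
      fun v hv => Finset.mem_coe.2 (Finset.mem_biUnion.2 ⟨v / 2, hv, by simp; omega⟩)))
  have h3 : Rch (F : Set G)ᶜ x b := by
    by_cases h : x.1.v / 2 ∈ J
    · have : ∃ j ∉ J, x.1.f j ≠ 0 := by
        by_contra h4
        push Not at h4
        exact h2 ⟨h, h4⟩
      obtain ⟨j, hj, h4⟩ := this
      exact h1 j hj x ((by decide : ∀ z : ZMod 2, z ≠ 0 → z = 1) _ h4)
    · exact (rch_of_R (y := ⟨x.1.f.update (x.1.v / 2) 1, x.1.v⟩) x.2 (hJ _ h _ (Or.inl rfl))
        ⟨by simp, by simp, fun j hj _ => by simp [hj]⟩).trans (h1 _ h _ (by simp))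
  obtain ⟨_, _, h4⟩ := h3
  exact hx.symm.trans (ConnectedComponent.sound h4)

/-- A one-ended group whose connection thickness exceeds `n + 2` for infinitely many `n`. -/
theorem result : ∃ (G : Type) (_ : Group G) (S : Set G), S.Finite ∧ Subgroup.closure S = ⊤ ∧
    OneEnded (mulCayley S) ∧
    {n : ℕ | ∀ r ≤ n + 2, ¬ ((mulCayley S).induce ({g | (mulCayley S).dist 1 g ≤ n + r} ∩
      infPart (mulCayley S) {g | n ≤ (mulCayley S).dist 1 g})).Connected}.Infinite := by
  refine ⟨G, inferInstance, S, ?_, ?_, oneEnded, ?_⟩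
  · refine (finite_of {0, -1} {-1, 0, 1} (Set.toFinite _)).subset fun g hg => ⟨?_, fun j hj => ?_⟩
    · have h1 : (0 : ℤ) ≤ _ := hg.1
      have h2 : _ ≤ (0 : ℤ) + 1 := hg.2.1
      simp only [Set.mem_insert_iff, Set.mem_singleton_iff]
      omega
    · have h1 : (0 : ℤ) ≤ _ := hg.1
      have h2 : _ ≤ (0 : ℤ) + 1 := hg.2.1
      simp only [Finset.mem_insert, Finset.mem_singleton, not_or] at hj
      exact (hg.2.2 j (show j ≠ 0 / 2 by omega) (by omega)).symm
  · refine eq_top_iff.2 fun g _ => ?_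
    have := (reachable_iff_reflTransGen _ _).1 (reach g)
    induction this with
    | refl => exact one_mem _
    | @tail u w _ h ih =>
      rw [← mul_inv_cancel_left u w]
      exact mul_mem (ih trivial) (Subgroup.subset_closure ((mem_S u _).2
        (by simpa using ((adj_iff _ _).1 h).2)))
  refine Set.infinite_of_injective_forall_mem (f := fun m : ℕ => 2 * m + 3)
    (fun a b e => by simp only at e; omega) fun m r (hr : r ≤ 2 * m + 3 + 2) h => ?_
  have hd : ∀ (e : ℤ), e = 1 ∨ e = -1 → ∀ k : ℕ, Γ.dist 1 ⟨0, e * k⟩ ≤ k := fun e he k => by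
    induction k with
    | zero =>
      rw [Nat.cast_zero, mul_zero]
      exact (dist_self (G := Γ) (v := 1)).le
    | succ k ih =>
      refine (dist_step (u := ⟨0, e * k⟩) (w := ⟨0, e * (k + 1 : ℕ)⟩) ⟨?_, ?_, fun _ _ _ => rfl⟩).trans (Nat.succ_le_succ ih) <;>
        rcases he with rfl | rfl <;> push_cast <;> omega
  have hm : ∀ (e : ℤ), e = 1 ∨ e = -1 → (⟨0, e * (2 * m + 3 : ℕ)⟩ : G) ∈
      {g | Γ.dist 1 g ≤ 2 * m + 3 + r} ∩ infPart Γ {g | 2 * m + 3 ≤ Γ.dist 1 g} := fun e he =>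
    ⟨(hd e he _).trans (Nat.le_add_right _ _), ray _ _ e he 0 fun i => by
      have := abs_le_dist ⟨0, e * (2 * m + 3 : ℕ) + e * i⟩
      rcases he with rfl | rfl <;> simp only [Set.mem_ofPred_eq] at this ⊢ <;> omega⟩
  have key : ∀ x, Relation.ReflTransGen (Γ.induce _).Adj ⟨_, hm 1 (Or.inl rfl)⟩ x →
      (∀ j < 0, x.1.f j = 0) ∧ 0 ≤ x.1.v ∧ (2 * m + 3 ≤ x.1.v ∨ ∃ j, x.1.f j ≠ 0 ∧ m + 2 ≤ j) := by
    intro x hx
    induction hx with
    | refl => exact ⟨fun _ _ => rfl, by simp only; omega, Or.inl (by simp only; omega)⟩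
    | @tail u w _ h ih =>
      obtain ⟨h1, h2, h3⟩ := ((adj_iff u.1 w.1).1 h).2
      obtain ⟨i1, i2, i3⟩ := ih
      have h4 : Γ.dist 1 w.1 ≤ 2 * m + 3 + r := w.2.1
      have h5 : 2 * m + 3 ≤ Γ.dist 1 w.1 := w.2.2.1
      have h6 : 0 ≤ w.1.v := by
        by_contra h6
        obtain ⟨j, hj, hj'⟩ := i3.resolve_left (by omega)
        have := lower w.1 j (h3 j (by omega) (by omega) ▸ hj) (by omega)
        omega
      have h7 : ∀ j < 0, w.1.f j = 0 := fun j hj => h3 j (by omega) (by omega) ▸ i1 j hj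
      refine ⟨h7, h6, ?_⟩
      by_contra h8
      push Not at h8
      by_cases h9 : u.1.v < 2 * m + 3
      · obtain ⟨j, hj, hj'⟩ := i3.resolve_left (by omega)
        have := h8.2 j (h3 j (by omega) (by omega) ▸ hj)
        omega
      · have := upper (2 * m + 1) w.1.f fun j hj =>
          ⟨not_lt.1 fun h => hj (h7 j h), by have := h8.2 j hj; omega⟩
        rw [show (⟨w.1.f, (2 * m + 1 : ℕ) + 1⟩ : G) = w.1 from G.ext rfl (by simp only; omega)] at this
        omega
  have := (key _ ((reachable_iff_reflTransGen _ _).1 (h.preconnected _ ⟨_, hm (-1) (Or.inr rfl)⟩))).2.1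
  simp only at this
  omega

end Pool.Agent.Results.MP_164a7b_al.Thick
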